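import Mathlib

namespace Pool.Agent.P.MP_d9fc2a_co

open Real

variable {n : ℕ}

/-- The closed polygonal curve with vertices `v 0, v 1, …` is simple: its points
`v i + s (v (i+1) - v i)`, `0 ≤ s < 1`, are pairwise distinct. -/
def IsSimple (v : ZMod n → ℂ) : Prop :=
  ∀ (i j : ZMod n) (s t : ℝ), 0 ≤ s → s < 1 → 0 ≤ t → t < 1 →
    v i + s • (v (i + 1) - v i) = v j + t • (v (j + 1) - v j) → i = j ∧ s = t

/-- The vertices are listed counterclockwise: the signed area is positive. -/
def IsCCW (v : ZMod n → ℂ) : Prop :=
  0 < ∑ k ∈ Finset.range n, ((starRingEnd ℂ) (v k) * v (k + 1)).im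

/-- Arc length of the boundary from `v 0` to the `k`-th vertex met (going round repeatedly);
`pos v n` is the perimeter. A real `x ≥ 0` stands for the boundary point at arc length `x`. -/
noncomputable def pos (v : ZMod n → ℂ) (k : ℕ) : ℝ :=
  ∑ j ∈ Finset.range k, ‖v (j + 1) - v j‖

/-- Index of the last vertex met up to arc length `x`. -/
noncomputable def idx (v : ZMod n → ℂ) (x : ℝ) : ℕ := sSup {k : ℕ | pos v k ≤ x}

/-- The element of the polygon carrying the boundary point `x`: the vertex `i` (`inl i`), or
the interior of the edge from `v i` to `v (i+1)` (`inr i`). -/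
noncomputable def elem (v : ZMod n → ℂ) (x : ℝ) : ZMod n ⊕ ZMod n :=
  if pos v (idx v x) = x then Sum.inl (idx v x) else Sum.inr (idx v x)

/-- The interior angle of the (counterclockwise) polygon at the boundary point `x`:
`π` minus the turning angle at a vertex, and `π` inside an edge. -/
noncomputable def ang (v : ZMod n → ℂ) (x : ℝ) : ℝ :=
  (elem v x).elim (fun i => π - Complex.arg ((v (i + 1) - v i) / (v i - v (i - 1)))) (fun _ => π)

/-- Alexandrov's angle condition along the boundary arc `[p, q]` folded at its midpoint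
(`p + t` is glued to `q - t`). -/
def LegOK (v : ZMod n → ℂ) (p q : ℝ) : Prop :=
  (∀ t, 0 < t → t < (q - p) / 2 → ang v (p + t) + ang v (q - t) ≤ 2 * π) ∧
    ang v ((p + q) / 2) ≤ 2 * π

/-- A gluing with a three-leaf tree: the boundary points `a < b < c` are glued together (the
branch node), each of the three arcs between them is folded at its midpoint (the leaves), and
Alexandrov's angle condition holds everywhere. -/
def IsY (v : ZMod n → ℂ) (a b c : ℝ) : Prop :=
  0 ≤ a ∧ a < b ∧ b < c ∧ c < pos v n ∧ ang v a + ang v b + ang v c ≤ 2 * π ∧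
    LegOK v a b ∧ LegOK v b c ∧ LegOK v c (a + pos v n)

/-- The nodes on the leg made from the arc `[p, q]`, given by their distance `t > 0` from the
branch node: the leaf, and the points carrying a vertex. -/
def nodes (v : ZMod n → ℂ) (p q : ℝ) : Set ℝ :=
  {t | 0 < t ∧ t ≤ (q - p) / 2 ∧
    (t = (q - p) / 2 ∨ (elem v (p + t)).isLeft ∨ (elem v (q - t)).isLeft)}

/-- The sequence of labels along a leg, as the set of pairs (number of earlier nodes, label). -/
def legType (v : ZMod n → ℂ) (p q : ℝ) : Set (ℕ × Set (ZMod n ⊕ ZMod n)) :=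
  (fun t => ({u ∈ nodes v p q | u < t}.ncard, {elem v (p + t), elem v (q - t)})) '' nodes v p q

/-- The combinatorial type (labelled tree up to isomorphism): the label of the branch node and
the unordered triple of labelled legs. -/
noncomputable def yType (v : ZMod n → ℂ) (a b c : ℝ) :
    Set (ZMod n ⊕ ZMod n) × Multiset (Set (ℕ × Set (ZMod n ⊕ ZMod n))) :=
  ({elem v a, elem v b, elem v c}, {legType v a b, legType v b c, legType v c (a + pos v n)})

/-- `f n`: the largest number of distinct three-leaf gluing trees of a simple `n`-gon. -/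
noncomputable def maxY (n : ℕ) : ℕ∞ :=
  ⨆ (v : ZMod n → ℂ) (_ : IsSimple v ∧ IsCCW v),
    {τ | ∃ a b c, IsY v a b c ∧ τ = yType v a b c}.encard

end Pool.Agent.P.MP_d9fc2a_co
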