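import Pool.Agent.P.MP_d9fc2a_co.Turn

namespace Pool.Agent.P.MP_d9fc2a_co

open Real Finset

variable {n : ℕ} {v : ZMod n → ℂ}

/-- standing assumptions -/
structure Good (v : ZMod n → ℂ) : Prop where
  simple : IsSimple v
  two : 2 ≤ n

lemma pos_zero : pos v 0 = 0 := by simp [pos]

lemma pos_succ (k : ℕ) : pos v (k + 1) = pos v k + ‖v (k + 1) - v k‖ := by
  unfold pos; rw [sum_range_succ]

lemma Good.edge_pos (hv : Good v) (j : ZMod n) : 0 < ‖v (j + 1) - v j‖ := by
  rw [norm_pos_iff, sub_ne_zero]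
  intro h
  have h2 := hv.simple.inj h
  have h3 : ((0 : ℕ) : ZMod n) = ((1 : ℕ) : ZMod n) := by
    push_cast; linear_combination -h2
  have := hv.two
  exact cast_ne (n := n) (by omega) (by omega) h3

lemma Good.mono (hv : Good v) : StrictMono (pos v) :=
  strictMono_nat_of_lt_succ fun k => by rw [pos_succ]; linarith [hv.edge_pos k]

lemma Good.pos_nonneg (hv : Good v) (k : ℕ) : 0 ≤ pos v k := by
  rw [← pos_zero (v := v)]; exact hv.mono.monotone (Nat.zero_le k)

lemma Good.L_pos (hv : Good v) : 0 < pos v n := by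
  rw [← pos_zero (v := v)]; exact hv.mono (by have := hv.two; omega)

lemma pos_add_n (k : ℕ) : pos v (k + n) = pos v k + pos v n := by
  induction k with
  | zero => simp [pos_zero]
  | succ k ih =>
    rw [show k + 1 + n = (k + n) + 1 by ring, pos_succ, ih, pos_succ]
    simp only [Nat.cast_add, ZMod.natCast_self, add_zero]
    ring

lemma Good.exists_lt (hv : Good v) (x : ℝ) : ∃ K, x < pos v K := by
  have h : ∀ m : ℕ, pos v (m * n) = m * pos v n := by
    intro m
    induction m with
    | zero => simp [pos_zero]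
    | succ m ih => rw [Nat.succ_mul, pos_add_n, ih]; push_cast; ring
  obtain ⟨m, hm⟩ := exists_nat_gt (x / pos v n)
  rw [div_lt_iff₀ hv.L_pos] at hm
  exact ⟨m * n, by rw [h]; exact hm⟩

lemma Good.idx_eq (hv : Good v) {x : ℝ} {k : ℕ} (h1 : pos v k ≤ x) (h2 : x < pos v (k + 1)) :
    idx v x = k := by
  unfold idx
  apply IsGreatest.csSup_eq
  refine ⟨h1, fun j hj => ?_⟩
  have : pos v j < pos v (k + 1) := lt_of_le_of_lt hj h2
  rw [hv.mono.lt_iff_lt] at this
  omega

lemma Good.exists_idx (hv : Good v) {x : ℝ} (hx : 0 ≤ x) :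
    ∃ k, pos v k ≤ x ∧ x < pos v (k + 1) := by
  classical
  have hex := hv.exists_lt x
  have h0 : Nat.find hex ≠ 0 := by
    intro h
    have := Nat.find_spec hex
    rw [h, pos_zero] at this
    linarith
  obtain ⟨k, hk⟩ := Nat.exists_eq_succ_of_ne_zero h0
  refine ⟨k, ?_, ?_⟩
  · have := Nat.find_min hex (m := k) (by omega)
    linarith
  · have := Nat.find_spec hex
    rwa [hk] at this

lemma Good.elem_pos (hv : Good v) (k : ℕ) : elem v (pos v k) = Sum.inl (k : ZMod n) := by
  unfold elem
  rw [hv.idx_eq le_rfl (hv.mono (Nat.lt_succ_self k)), if_pos rfl]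

lemma Good.elem_edge (hv : Good v) {x : ℝ} {k : ℕ} (h1 : pos v k < x) (h2 : x < pos v (k + 1)) :
    elem v x = Sum.inr (k : ZMod n) := by
  unfold elem
  rw [hv.idx_eq h1.le h2, if_neg h1.ne]

lemma Good.cases (hv : Good v) {x : ℝ} (hx : 0 ≤ x) :
    (∃ k, x = pos v k) ∨ ∃ k, pos v k < x ∧ x < pos v (k + 1) := by
  obtain ⟨k, h1, h2⟩ := hv.exists_idx hx
  rcases h1.eq_or_lt with h | h
  · exact Or.inl ⟨k, h.symm⟩
  · exact Or.inr ⟨k, h, h2⟩

lemma Good.isLeft_iff (hv : Good v) {x : ℝ} (hx : 0 ≤ x) :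
    (elem v x).isLeft = true ↔ ∃ k, x = pos v k := by
  constructor
  · intro h
    rcases hv.cases hx with g | ⟨k, g1, g2⟩
    · exact g
    · rw [hv.elem_edge g1 g2] at h; simp at h
  · rintro ⟨k, rfl⟩
    rw [hv.elem_pos]; rfl

lemma Good.elem_add (hv : Good v) {x : ℝ} (hx : 0 ≤ x) : elem v (x + pos v n) = elem v x := by
  rcases hv.cases hx with ⟨k, rfl⟩ | ⟨k, g1, g2⟩
  · rw [← pos_add_n, hv.elem_pos, hv.elem_pos]; simp
  · rw [hv.elem_edge g1 g2, hv.elem_edge (k := k + n) (by rw [pos_add_n]; linarith)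
      (by rw [show k + n + 1 = k + 1 + n by ring, pos_add_n]; linarith)]
    simp

lemma Good.elem_congr (hv : Good v) {x y : ℝ} (hx : 0 ≤ x)
    (h : ∀ k, (pos v k < x ↔ pos v k < y) ∧ (x < pos v k ↔ y < pos v k)) :
    elem v x = elem v y := by
  rcases hv.cases hx with ⟨k, g⟩ | ⟨k, g1, g2⟩
  · have h1 := (h k).1.not.mp (by rw [g]; exact lt_irrefl _)
    have h2 := (h k).2.not.mp (by rw [g]; exact lt_irrefl _)
    have : y = pos v k := le_antisymm (not_lt.mp h1) (not_lt.mp h2)
    rw [g, this]
  · rw [hv.elem_edge g1 g2, hv.elem_edge ((h k).1.mp g1) ((h (k + 1)).2.mp g2)]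

lemma Good.ang_pos (hv : Good v) (k : ℕ) : ang v (pos v k) = π - tau v k := by
  unfold ang; rw [hv.elem_pos]; rfl

lemma Good.ang_edge (hv : Good v) {x : ℝ} (hx : 0 ≤ x) (h : ∀ k, x ≠ pos v k) : ang v x = π := by
  rcases hv.cases hx with ⟨k, g⟩ | ⟨k, g1, g2⟩
  · exact absurd g (h k)
  · unfold ang; rw [hv.elem_edge g1 g2]; rfl

lemma Good.ang_gt (hv : Good v) {x : ℝ} (hx : 0 ≤ x) : 0 < ang v x := by
  by_cases h : ∃ k, x = pos v k
  · obtain ⟨k, rfl⟩ := h
    rw [hv.ang_pos]; linarith [tau_lt_pi hv.simple hv.two k]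
  · push Not at h
    rw [hv.ang_edge hx h]; exact pi_pos

lemma Good.ang_add (hv : Good v) {x : ℝ} (hx : 0 ≤ x) : ang v (x + pos v n) = ang v x := by
  unfold ang; rw [hv.elem_add hx]

lemma Good.legOK_add (hv : Good v) {p q : ℝ} (hp : 0 ≤ p) (hpq : p ≤ q) (h : LegOK v p q) :
    LegOK v (p + pos v n) (q + pos v n) := by
  constructor
  · intro t h1 h2
    rw [show p + pos v n + t = p + t + pos v n by ring, show q + pos v n - t = q - t + pos v n by ring,
      hv.ang_add (by linarith), hv.ang_add (by linarith)]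
    exact h.1 t h1 (by linarith)
  · rw [show (p + pos v n + (q + pos v n)) / 2 = (p + q) / 2 + pos v n by ring,
      hv.ang_add (by linarith)]
    exact h.2

lemma Good.legType_add (hv : Good v) {p q : ℝ} (hp : 0 ≤ p) (hpq : p ≤ q) :
    legType v (p + pos v n) (q + pos v n) = legType v p q := by
  have e1 : ∀ t, 0 < t → elem v (p + pos v n + t) = elem v (p + t) := fun t ht => by
    rw [show p + pos v n + t = p + t + pos v n by ring, hv.elem_add (by linarith)]
  have e2 : ∀ t, t ≤ (q - p) / 2 → elem v (q + pos v n - t) = elem v (q - t) := fun t ht => by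
    rw [show q + pos v n - t = q - t + pos v n by ring, hv.elem_add (by linarith)]
  have hn : nodes v (p + pos v n) (q + pos v n) = nodes v p q := by
    ext t
    unfold nodes
    simp only [Set.mem_ofPred_eq, add_sub_add_right_eq_sub]
    constructor
    · rintro ⟨h1, h2, h3⟩
      rw [e1 t h1, e2 t h2] at h3
      exact ⟨h1, h2, h3⟩
    · rintro ⟨h1, h2, h3⟩
      rw [e1 t h1, e2 t h2]
      exact ⟨h1, h2, h3⟩
  unfold legType
  rw [hn]
  apply Set.image_congr
  intro t ht
  rw [e1 t ht.1, e2 t ht.2.1]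

lemma ncard_image_congr {α β γ : Type} {S : Set α} {f : α → β} {g : α → γ}
    (h : ∀ x ∈ S, ∀ y ∈ S, f x = f y ↔ g x = g y) : (f '' S).ncard = (g '' S).ncard := by
  apply Set.ncard_congr (fun a ha => g ha.choose)
  · intro a ha
    exact ⟨_, ha.choose_spec.1, rfl⟩
  · intro a b ha hb he
    rw [← ha.choose_spec.2, ← hb.choose_spec.2]
    exact (h _ ha.choose_spec.1 _ hb.choose_spec.1).mpr he
  · rintro _ ⟨x, hx, rfl⟩
    have hm : f x ∈ f '' S := ⟨x, hx, rfl⟩
    exact ⟨f x, hm, (h _ hm.choose_spec.1 _ hx).mp hm.choose_spec.2⟩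

/-- position on the leg of the leaf (`none`) or of the vertex `k` -/
noncomputable def tt (v : ZMod n → ℂ) (p q : ℝ) : Option ℕ → ℝ
  | none => (q - p) / 2
  | some k => (q - p) / 2 - |pos v k - (p + q) / 2|

/-- the indices of the nodes -/
def ix (v : ZMod n → ℂ) (p q : ℝ) : Set (Option ℕ) :=
  {κ | ∀ k, κ = some k → p < pos v k ∧ pos v k < q}

lemma Good.nodes_eq (hv : Good v) {p q : ℝ} (hp : 0 ≤ p) (hpq : p < q) :
    nodes v p q = tt v p q '' ix v p q := by
  ext t
  constructor
  · rintro ⟨h1, h2, h3 | h3 | h3⟩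
    · exact ⟨none, fun k hk => (by cases hk), h3.symm⟩
    · obtain ⟨k, hk⟩ := (hv.isLeft_iff (by linarith)).mp h3
      refine ⟨some k, fun k' hk' => ?_, ?_⟩
      · cases hk'; constructor <;> linarith
      · rw [tt, abs_of_nonpos (by linarith)]; linarith
    · obtain ⟨k, hk⟩ := (hv.isLeft_iff (by linarith)).mp h3
      refine ⟨some k, fun k' hk' => ?_, ?_⟩
      · cases hk'; constructor <;> linarith
      · rw [tt, abs_of_nonneg (by linarith)]; linarith
  · rintro ⟨κ, hκ, rfl⟩
    cases κ with
    | none => exact ⟨by rw [tt]; linarith, le_rfl, Or.inl rfl⟩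
    | some k =>
      obtain ⟨g1, g2⟩ := hκ k rfl
      rw [tt]
      rcases le_total (pos v k) ((p + q) / 2) with h | h
      · rw [abs_of_nonpos (by linarith)]
        refine ⟨by linarith, by linarith, Or.inr (Or.inl ?_)⟩
        rw [hv.isLeft_iff (by linarith)]
        exact ⟨k, by ring⟩
      · rw [abs_of_nonneg (by linarith)]
        refine ⟨by linarith, by linarith, Or.inr (Or.inr ?_)⟩
        rw [hv.isLeft_iff (by linarith)]
        exact ⟨k, by ring⟩

lemma lab_some (p q : ℝ) (k : ℕ) :
    ({elem v (p + tt v p q (some k)), elem v (q - tt v p q (some k))} : Set _) =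
      {elem v (pos v k), elem v (p + q - pos v k)} := by
  rw [tt]
  rcases le_total (pos v k) ((p + q) / 2) with h | h
  · rw [abs_of_nonpos (by linarith)]
    congr 2 <;> ring_nf
  · rw [abs_of_nonneg (by linarith), Set.pair_comm]
    congr 2 <;> ring_nf

lemma Good.legType_congr (hv : Good v) {p q p' q' : ℝ} (hp : 0 ≤ p) (hpq : p < q)
    (hp' : 0 ≤ p') (hpq' : p' < q')
    (h1 : ∀ k, p < pos v k ↔ p' < pos v k) (h2 : ∀ k, pos v k < q ↔ pos v k < q')
    (h3 : ∀ k l, p < pos v k → pos v k < q → p < pos v l → pos v l < q →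
      (pos v k + pos v l < p + q ↔ pos v k + pos v l < p' + q') ∧
      (p + q < pos v k + pos v l ↔ p' + q' < pos v k + pos v l)) :
    legType v p q = legType v p' q' := by
  have hix : ix v p' q' = ix v p q := by
    ext κ
    simp only [ix, Set.mem_ofPred_eq, h1, h2]
  have hord : ∀ κ ∈ ix v p q, ∀ κ' ∈ ix v p q,
      tt v p q κ < tt v p q κ' ↔ tt v p' q' κ < tt v p' q' κ' := by
    intro κ hκ κ' hκ'
    cases κ with
    | none =>
      cases κ' with
      | none => simp
      | some l =>
        simp only [tt]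
        exact ⟨fun g => absurd g (not_lt.mpr (sub_le_self _ (abs_nonneg _))),
          fun g => absurd g (not_lt.mpr (sub_le_self _ (abs_nonneg _)))⟩
    | some k =>
      obtain ⟨g1, g2⟩ := hκ k rfl
      cases κ' with
      | none =>
        obtain ⟨g3, g4⟩ := h3 k k g1 g2 g1 g2
        simp only [tt, sub_lt_self_iff, abs_pos, ne_eq, sub_eq_zero]
        apply not_congr
        constructor
        · intro g
          have g5 := g3.not.mp (by linarith)
          have g6 := g4.not.mp (by linarith)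
          linarith
        · intro g
          have g5 := g3.not.mpr (by linarith)
          have g6 := g4.not.mpr (by linarith)
          linarith
      | some l =>
        obtain ⟨g3, g4⟩ := hκ' l rfl
        obtain ⟨g5, g6⟩ := h3 k l g1 g2 g3 g4
        have key : ∀ a b : ℝ, (|pos v l - (a + b) / 2| < |pos v k - (a + b) / 2|) ↔
            ((pos v l < pos v k ∧ a + b < pos v k + pos v l) ∨
              (pos v k < pos v l ∧ pos v k + pos v l < a + b)) := by
          intro a b
          rw [← sq_lt_sq, ← sub_pos,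
            show (pos v k - (a + b) / 2) ^ 2 - (pos v l - (a + b) / 2) ^ 2 =
              (pos v k - pos v l) * (pos v k + pos v l - (a + b)) by ring, mul_pos_iff]
          simp only [sub_pos, sub_neg]
        simp only [tt, sub_lt_sub_iff_left, key, g5, g6]
  have heq : ∀ κ ∈ ix v p q, ∀ κ' ∈ ix v p q,
      tt v p q κ = tt v p q κ' ↔ tt v p' q' κ = tt v p' q' κ' := by
    intro κ hκ κ' hκ'
    rw [le_antisymm_iff, le_antisymm_iff, ← not_lt, ← not_lt, ← not_lt, ← not_lt,
      hord κ hκ κ' hκ', hord κ' hκ' κ hκ]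
  have hel : ∀ y y' : ℝ, p < y → y < q → p' < y' → y' < q' →
      (∀ l, p < pos v l → pos v l < q → (pos v l < y ↔ pos v l < y') ∧
        (y < pos v l ↔ y' < pos v l)) → elem v y = elem v y' := by
    intro y y' a1 a2 a3 a4 a5
    apply hv.elem_congr (by linarith)
    intro l
    by_cases b1 : p < pos v l
    · by_cases b2 : pos v l < q
      · exact a5 l b1 b2
      · have b3 := (h2 l).not.mp b2
        constructor <;> constructor <;> intro <;> linarith
    · have b3 := (h1 l).not.mp b1
      constructor <;> constructor <;> intro <;> linarith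
  unfold legType
  rw [hv.nodes_eq hp hpq, hv.nodes_eq hp' hpq', hix, Set.image_image, Set.image_image]
  apply Set.image_congr
  intro κ hκ
  refine Prod.ext ?_ ?_
  · have e : ∀ a b : ℝ, {u ∈ tt v a b '' ix v p q | u < tt v a b κ} =
        tt v a b '' {κ' ∈ ix v p q | tt v a b κ' < tt v a b κ} := by
      intro a b
      ext u
      constructor
      · rintro ⟨⟨κ', g1, rfl⟩, g2⟩
        exact ⟨κ', ⟨g1, g2⟩, rfl⟩
      · rintro ⟨κ', ⟨g1, g2⟩, rfl⟩
        exact ⟨⟨κ', g1, rfl⟩, g2⟩
    have e2 : {κ' ∈ ix v p q | tt v p' q' κ' < tt v p' q' κ} =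
        {κ' ∈ ix v p q | tt v p q κ' < tt v p q κ} := by
      ext κ'
      simp only [Set.mem_ofPred_eq]
      exact and_congr_right fun g => (hord κ' g κ hκ).symm
    simp only
    rw [e, e, e2]
    exact ncard_image_congr fun x hx y hy => heq x hx.1 y hy.1
  · simp only
    cases κ with
    | none =>
      have e : ∀ a b : ℝ, a + tt v a b none = (a + b) / 2 ∧ b - tt v a b none = (a + b) / 2 := by
        intro a b; rw [tt]; constructor <;> ring
      rw [(e p q).1, (e p q).2, (e p' q').1, (e p' q').2,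
        hel ((p + q) / 2) ((p' + q') / 2) (by linarith) (by linarith) (by linarith) (by linarith)]
      intro l b1 b2
      obtain ⟨g3, g4⟩ := h3 l l b1 b2 b1 b2
      constructor <;> constructor <;> intro g
      · linarith [g3.mp (by linarith)]
      · linarith [g3.mpr (by linarith)]
      · linarith [g4.mp (by linarith)]
      · linarith [g4.mpr (by linarith)]
    | some k =>
      obtain ⟨g1, g2⟩ := hκ k rfl
      have g1' := (h1 k).mp g1
      have g2' := (h2 k).mp g2
      rw [lab_some, lab_some, hel (p + q - pos v k) (p' + q' - pos v k) (by linarith)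
        (by linarith) (by linarith) (by linarith)]
      intro l b1 b2
      obtain ⟨g3, g4⟩ := h3 k l g1 g2 b1 b2
      constructor <;> constructor <;> intro g
      · linarith [g3.mp (by linarith)]
      · linarith [g3.mpr (by linarith)]
      · linarith [g4.mp (by linarith)]
      · linarith [g4.mpr (by linarith)]

end Pool.Agent.P.MP_d9fc2a_co
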