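import Pool.Agent.P.MP_d9fc2a_co.Elem

namespace Pool.Agent.P.MP_d9fc2a_co

open Real Finset Complex

/-- point of the parabola -/
def par (r : ℝ) : ℂ := ⟨r, r ^ 2⟩

lemma arg_chord {p q : ℝ} (h : p < q) : arg (par q - par p) = Real.arctan (p + q) := by
  have h1 : 0 < (par q - par p).re := by simp [par, h]
  have h2 := abs_lt.mp (abs_arg_lt_pi_div_two_iff.mpr (Or.inl h1))
  rw [← arctan_tan h2.1 h2.2, tan_arg]
  congr 1
  have : q - p ≠ 0 := by linarith
  simp only [par, sub_im, sub_re]
  field_simp
  ring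

lemma arg_par_nonneg {p q r : ℝ} (h : 0 ≤ (q - p) * (r - q) * (r - p)) :
    0 ≤ arg ((par r - par q) / (par q - par p)) := by
  rw [arg_nonneg_iff, div_im, ← sub_div]
  apply div_nonneg _ (normSq_nonneg _)
  simp only [par, sub_im, sub_re]
  nlinarith

variable {n : ℕ} {x : ℕ → ℝ}

/-- polygon inscribed in the parabola -/
def poly (n : ℕ) (x : ℕ → ℝ) : ZMod n → ℂ := fun i => par (x i.val)

lemma poly_nat {k : ℕ} (hk : k < n) : poly n x k = par (x k) := by
  unfold poly; rw [ZMod.val_natCast_of_lt hk]

lemma poly_n (hn : 0 < n) : poly n x n = par (x 0) := by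
  rw [ZMod.natCast_self, ← poly_nat hn]; simp

lemma poly_simple (hn : 3 ≤ n) (hx : ∀ i j, i < j → j < n → x i < x j) : IsSimple (poly n x) := by
  have : NeZero n := ⟨by omega⟩
  have hne : ∀ (i : ZMod n) (d : ℕ), 0 < d → d < n → i + d ≠ i := by
    intro i d h1 h2 h
    have h3 : ((0 : ℕ) : ZMod n) = (d : ZMod n) := by push_cast; linear_combination -h
    exact cast_ne (n := n) h1 (by omega) h3
  have hsign : ∀ i : ZMod n, ∃ ε : ℝ, ∀ k : ZMod n, k ≠ i → k ≠ i + 1 →
      0 < ε * ((x k.val - x i.val) * (x k.val - x (i + 1).val)) := by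
    intro i
    have hi := ZMod.val_lt i
    by_cases h : i.val + 1 < n
    · have hv : (i + 1).val = i.val + 1 := by
        conv_lhs => rw [← ZMod.natCast_zmod_val i]
        rw [← Nat.cast_succ, ZMod.val_natCast_of_lt h]
      refine ⟨1, fun k h1 h2 => ?_⟩
      have hk := ZMod.val_lt k
      have g1 : k.val ≠ i.val := fun g => h1 (ZMod.val_injective n g)
      have g2 : k.val ≠ i.val + 1 := fun g => h2 (ZMod.val_injective n (g.trans hv.symm))
      rw [one_mul, hv]
      rcases lt_or_gt_of_ne g1 with g | g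
      · exact mul_pos_of_neg_of_neg (sub_neg.mpr (hx _ _ g hi)) (sub_neg.mpr (hx _ _ (by omega) h))
      · exact mul_pos (sub_pos.mpr (hx _ _ g hk)) (sub_pos.mpr (hx _ _ (by omega) hk))
    · have hv : (i + 1).val = 0 := by
        conv_lhs => rw [← ZMod.natCast_zmod_val i]
        rw [← Nat.cast_succ, show i.val.succ = n by omega]; simp
      refine ⟨-1, fun k h1 h2 => ?_⟩
      have hk := ZMod.val_lt k
      have g1 : k.val ≠ i.val := fun g => h1 (ZMod.val_injective n g)
      have g2 : k.val ≠ 0 := fun g => h2 (ZMod.val_injective n (g.trans hv.symm))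
      rw [hv]
      have a1 := hx k.val i.val (by omega) hi
      have a2 := hx 0 k.val (by omega) hk
      nlinarith
  have hxne : ∀ i : ZMod n, x (i + 1).val ≠ x i.val := by
    intro i h
    have g : (i + 1).val ≠ i.val := fun g => hne i 1 one_pos (by omega)
      (by simpa using ZMod.val_injective n g)
    rcases lt_or_gt_of_ne g with g | g
    · exact absurd h (hx _ _ g (ZMod.val_lt _)).ne
    · exact absurd h (hx _ _ g (ZMod.val_lt _)).ne'
  intro i j s t s0 s1 t0 t1 h
  obtain ⟨ε, hε⟩ := hsign i
  have hre := congrArg Complex.re h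
  have him := congrArg Complex.im h
  simp only [poly, par, add_re, add_im, smul_re, smul_im, sub_re, sub_im, smul_eq_mul] at hre him
  have hnn : ∀ k : ZMod n, 0 ≤ ε * ((x k.val - x i.val) * (x k.val - x (i + 1).val)) := by
    intro k
    by_cases h1 : k = i
    · simp [h1]
    · by_cases h2 : k = i + 1
      · simp [h2]
      · exact (hε k h1 h2).le
  have key : (1 - t) * (ε * ((x j.val - x i.val) * (x j.val - x (i + 1).val))) +
      t * (ε * ((x (j + 1).val - x i.val) * (x (j + 1).val - x (i + 1).val))) = 0 := by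
    linear_combination (-ε) * him + ε * (x i.val + x (i + 1).val) * hre
  have a1 := mul_nonneg (sub_nonneg.mpr t1.le) (hnn j)
  have a2 := mul_nonneg t0 (hnn (j + 1))
  by_cases h1 : j = i
  · subst h1
    refine ⟨rfl, ?_⟩
    exact mul_right_cancel₀ (sub_ne_zero.mpr (hxne j)) (by linarith)
  · exfalso
    by_cases h2 : j = i + 1
    · subst h2
      have b1 := hε (i + 1 + 1) (by
        have := hne i 2 (by omega) (by omega)
        rwa [add_assoc, one_add_one_eq_two]) (by simpa using hne (i + 1) 1 one_pos (by omega))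
      have b2 : t = 0 := by
        by_contra hc
        have := mul_pos (lt_of_le_of_ne t0 (Ne.symm hc)) b1
        linarith
      rw [b2] at hre
      have b3 : (1 - s) * (x (i + 1).val - x i.val) = 0 := by linarith
      rcases mul_eq_zero.mp b3 with g | g
      · linarith
      · exact hxne i (by linarith)
    · have := mul_pos (sub_pos.mpr t1) (hε j h1 h2)
      linarith

lemma poly_ccw (hn : 3 ≤ n) (hx : ∀ i j, i < j → j < n → x i < x j) : IsCCW (poly n x) := by
  have key : ∀ m, m + 2 < n → 0 < ∑ k ∈ range (m + 2), x k * x (k + 1) * (x (k + 1) - x k) +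
      x (m + 2) * x 0 * (x 0 - x (m + 2)) := by
    intro m
    induction m with
    | zero =>
      intro h
      have := mul_pos (mul_pos (sub_pos.mpr (hx 0 1 (by omega) (by omega)))
        (sub_pos.mpr (hx 1 2 (by omega) (by omega)))) (sub_pos.mpr (hx 0 2 (by omega) (by omega)))
      simp only [sum_range_succ, range_zero, sum_empty, Nat.zero_add, Nat.reduceAdd]
      linarith
    | succ m ih =>
      intro h
      have h1 := ih (by omega)
      have := mul_pos (mul_pos (sub_pos.mpr (hx 0 (m + 2) (by omega) (by omega)))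
        (sub_pos.mpr (hx (m + 2) (m + 2 + 1) (by omega) (by omega))))
        (sub_pos.mpr (hx 0 (m + 2 + 1) (by omega) (by omega)))
      rw [show m + 1 + 2 = m + 2 + 1 by ring, sum_range_succ]
      linarith
  obtain ⟨m, rfl⟩ : ∃ m, n = m + 2 + 1 := ⟨n - 3, by omega⟩
  have him : ∀ p q : ℝ, ((starRingEnd ℂ) (par p) * par q).im = p * q * (q - p) := by
    intro p q; simp [par]; ring
  unfold IsCCW
  rw [sum_range_succ, ← Nat.cast_succ, poly_n (by omega), poly_nat (by omega), him]
  rw [sum_congr rfl (g := fun k => x k * x (k + 1) * (x (k + 1) - x k))]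
  · exact key m (by omega)
  · intro k hk
    rw [mem_range] at hk
    rw [← Nat.cast_succ, poly_nat (by omega), poly_nat (by omega), him]

lemma tau_nat (v : ZMod n → ℂ) (k : ℕ) :
    tau v (k + 1 : ℕ) = arg ((v (k + 2 : ℕ) - v (k + 1 : ℕ)) / (v (k + 1 : ℕ) - v k)) := by
  unfold tau
  push_cast
  congr 4 <;> ring

lemma poly_convex (hn : 3 ≤ n) (hx : ∀ i j, i < j → j < n → x i < x j) (i : ZMod n) :
    0 ≤ tau (poly n x) i := by
  have : NeZero n := ⟨by omega⟩
  have hk := ZMod.val_lt (i - 1)
  have hi : i = (((i - 1).val + 1 : ℕ) : ZMod n) := by simp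
  set k := (i - 1).val
  rw [hi, tau_nat]
  by_cases h1 : k + 2 < n
  · rw [poly_nat h1, poly_nat (by omega), poly_nat hk]
    apply arg_par_nonneg
    exact (mul_pos (mul_pos (sub_pos.mpr (hx _ _ (by omega) (by omega)))
      (sub_pos.mpr (hx _ _ (by omega) (by omega)))) (sub_pos.mpr (hx _ _ (by omega) h1))).le
  · by_cases h2 : k + 2 = n
    · rw [h2, poly_n (by omega), poly_nat (by omega), poly_nat hk]
      apply arg_par_nonneg
      have a1 := hx k (k + 1) (by omega) (by omega)
      have a2 := hx 0 k (by omega) (by omega)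
      have := mul_pos (mul_pos (sub_pos.mpr a1) (sub_pos.mpr (a2.trans a1))) (sub_pos.mpr a2)
      linarith
    · have h3 : k + 1 = n := by omega
      have h4 : ((k + 2 : ℕ) : ZMod n) = ((1 : ℕ) : ZMod n) := by
        rw [show k + 2 = n + 1 by omega]; simp
      rw [h4, h3, poly_n (by omega), poly_nat (by omega), poly_nat hk]
      apply arg_par_nonneg
      have a1 := hx 0 1 (by omega) (by omega)
      have a2 := hx 1 k (by omega) (by omega)
      have := mul_pos (mul_pos (sub_pos.mpr a1) (sub_pos.mpr (a1.trans a2))) (sub_pos.mpr a2)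
      linarith

lemma tau_mid (hx : ∀ i j, i < j → j < n → x i < x j) {k : ℕ} (hk : k + 2 < n) :
    tau (poly n x) (k + 1 : ℕ) = Real.arctan (x (k + 1) + x (k + 2)) - Real.arctan (x k + x (k + 1)) := by
  have a1 := hx k (k + 1) (by omega) (by omega)
  have a2 := hx (k + 1) (k + 2) (by omega) (by omega)
  rw [tau_nat, poly_nat hk, poly_nat (by omega), poly_nat (by omega),
    arg_div_of_re_pos (by simp [par, a1]) (by simp [par, a2]), arg_chord a1, arg_chord a2]

lemma tau_apex (hx : ∀ i j, i < j → j < n → x i < x j) {k : ℕ} (hk : k + 2 = n) (h0 : 0 < k) :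
    π / 2 + Real.arctan (x 0 + x (k + 1)) < tau (poly n x) (k + 1 : ℕ) := by
  have a1 := hx k (k + 1) (by omega) (by omega)
  have a2 := hx 0 k (by omega) (by omega)
  have h1 : arg ((par (x (k + 1)) - par (x 0)) / (par (x (k + 1)) - par (x k))) =
      Real.arctan (x 0 + x (k + 1)) - Real.arctan (x k + x (k + 1)) := by
    rw [arg_div_of_re_pos (by simp [par, a1]) (by simp [par, a2.trans a1]), arg_chord a1,
      arg_chord (a2.trans a1)]
  have h2 : Real.arctan (x 0 + x (k + 1)) < Real.arctan (x k + x (k + 1)) :=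
    arctan_strictMono (by linarith)
  rw [tau_nat, hk, poly_n (by omega), poly_nat (by omega), poly_nat (by omega), ← neg_sub,
    neg_div, arg_neg_eq_arg_add_pi_of_im_neg (arg_neg_iff.mp (by linarith)), h1]
  linarith [arctan_lt_pi_div_two (x k + x (k + 1))]

variable {v : ZMod n → ℂ}

lemma Good.legOK_of_convex (hv : Good v) (hc : ∀ i, 0 ≤ tau v i) {p q : ℝ} (hp : 0 ≤ p)
    (hpq : p ≤ q) : LegOK v p q := by
  have h : ∀ y, 0 ≤ y → ang v y ≤ π := by
    intro y hy
    by_cases g : ∃ k, y = pos v k
    · obtain ⟨k, rfl⟩ := g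
      rw [hv.ang_pos]; linarith [hc k]
    · push Not at g
      rw [hv.ang_edge hy g]
  constructor
  · intro t h1 h2
    linarith [h (p + t) (by linarith), h (q - t) (by linarith)]
  · linarith [h ((p + q) / 2) (by linarith), pi_pos]

lemma Good.elem_eq_inl (hv : Good v) {y : ℝ} (hy : 0 ≤ y) (hy2 : y < pos v (n + n)) {k : ℕ}
    (hk : k < n) (h : elem v y = Sum.inl (k : ZMod n)) : y = pos v k ∨ y = pos v (k + n) := by
  obtain ⟨k', rfl⟩ := (hv.isLeft_iff hy).mp (by rw [h]; rfl)
  rw [hv.elem_pos] at h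
  have h1 := Sum.inl.inj h
  have h2 := hv.mono.lt_iff_lt.mp hy2
  rcases lt_trichotomy k' k with g | g | g
  · exact absurd h1 (cast_ne g (by omega))
  · left; rw [g]
  · rcases lt_trichotomy k' (k + n) with g' | g' | g'
    · exact absurd h1.symm (cast_ne g g')
    · right; rw [g']
    · exact absurd (by simpa using h1.symm) (cast_ne (n := n) g' (by omega))

lemma label_mem {p q : ℝ} {e e' : ZMod n ⊕ ZMod n} {r : ℕ}
    (h : (r, ({e, e'} : Set _)) ∈ legType v p q) :
    ∃ y y', p < y ∧ y < q ∧ p < y' ∧ y' < q ∧ y + y' = p + q ∧ elem v y = e ∧ elem v y' = e' := by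
  obtain ⟨t, ⟨h1, h2, -⟩, h3⟩ := h
  have h4 : ({elem v (p + t), elem v (q - t)} : Set _) = {e, e'} := congrArg Prod.snd h3
  rcases Set.pair_eq_pair_iff.mp h4 with g | g
  · exact ⟨p + t, q - t, by linarith, by linarith, by linarith, by linarith, by ring, g.1, g.2⟩
  · exact ⟨q - t, p + t, by linarith, by linarith, by linarith, by linarith, by ring, g.2, g.1⟩

lemma Good.many (hv : Good v) (hc : ∀ i, 0 ≤ tau v i) {m N : ℕ} (hN : N + 1 = n)
    (hm : 3 * m + 2 ≤ N) (hsharp : ∀ b, 1 ≤ b → b ≤ m → π ≤ tau v (b : ℕ) + tau v (N : ℕ))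
    (hlong : ∀ l, l ≤ 3 * m → pos v l + pos v l < pos v (l + 1)) :
    ((m ^ 3 : ℕ) : ℕ∞) ≤ {τ | ∃ a b c, IsY v a b c ∧ τ = yType v a b c}.encard := by
  classical
  set D := Icc 1 m ×ˢ Icc (m + 1) (2 * m) ×ˢ Icc (2 * m + 1) (3 * m) with hD
  set F := fun d : ℕ × ℕ × ℕ =>
    yType v (pos v d.1) (pos v d.2.1 + pos v d.2.2 - pos v d.1) (pos v N) with hF
  have hx : ∀ b k l, b < k → k < l → l ≤ 3 * m → pos v l < pos v k + pos v l - pos v b ∧
      pos v k + pos v l - pos v b < pos v (l + 1) := by
    intro b k l h1 h2 h3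
    have := hv.mono h1
    have := hv.mono h2
    have := hlong l h3
    have := hv.pos_nonneg b
    constructor <;> linarith
  have hsub : F '' (D : Set _) ⊆ {τ | ∃ a b c, IsY v a b c ∧ τ = yType v a b c} := by
    rintro _ ⟨⟨b, k, l⟩, hd, rfl⟩
    simp only [hD, coe_product, coe_Icc, Set.mem_prod, Set.mem_Icc] at hd
    obtain ⟨g1, g2⟩ := hx b k l (by omega) (by omega) (by omega)
    have g3 : pos v b < pos v l := hv.mono (by omega)
    have g4 : pos v (l + 1) < pos v N := hv.mono (by omega)
    have g5 : pos v N < pos v n := hv.mono (by omega)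
    have g6 := hv.pos_nonneg b
    refine ⟨_, _, _, ⟨g6, by linarith, by linarith, g5, ?_,
      hv.legOK_of_convex hc g6 (by linarith), hv.legOK_of_convex hc (by linarith) (by linarith),
      hv.legOK_of_convex hc (by linarith) (by linarith)⟩, rfl⟩
    rw [hv.ang_pos, hv.ang_pos, ang, hv.elem_edge g1 g2, Sum.elim_inr]
    linarith [hsharp b hd.1.1 hd.1.2]
  have hinj : Set.InjOn F (D : Set _) := by
    rintro ⟨b, k, l⟩ hd ⟨b', k', l'⟩ hd' he
    simp only [hD, coe_product, coe_Icc, Set.mem_prod, Set.mem_Icc] at hd hd'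
    obtain ⟨g1, g2⟩ := hx b k l (by omega) (by omega) (by omega)
    obtain ⟨g1', g2'⟩ := hx b' k' l' (by omega) (by omega) (by omega)
    have hcast : ∀ i j : ℕ, i < n → j < n → (i : ZMod n) = j → i = j := by
      intro i j h1 h2 h3
      rcases lt_trichotomy i j with g | g | g
      · exact absurd h3 (cast_ne g (by omega))
      · exact g
      · exact absurd h3.symm (cast_ne g (by omega))
    have c1 := congrArg Prod.fst he
    have c2 := congrArg Prod.snd he
    simp only [hF, yType, hv.elem_pos, hv.elem_edge g1 g2, hv.elem_edge g1' g2'] at c1 c2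
    have hl : l = l' := by
      have : (Sum.inr (l : ZMod n) : ZMod n ⊕ ZMod n) ∈
          ({Sum.inl (b' : ZMod n), Sum.inr (l' : ZMod n), Sum.inl (N : ZMod n)} : Set _) := by
        rw [← c1]; simp
      simp only [Set.mem_insert_iff, Set.mem_singleton_iff, reduceCtorEq, Sum.inr.injEq,
        false_or, or_false] at this
      exact hcast _ _ (by omega) (by omega) this
    have hb : b = b' := by
      have : (Sum.inl (b : ZMod n) : ZMod n ⊕ ZMod n) ∈
          ({Sum.inl (b' : ZMod n), Sum.inr (l' : ZMod n), Sum.inl (N : ZMod n)} : Set _) := by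
        rw [← c1]; simp
      simp only [Set.mem_insert_iff, Set.mem_singleton_iff, reduceCtorEq, Sum.inl.injEq,
        false_or] at this
      rcases this with g | g
      · exact hcast _ _ (by omega) (by omega) g
      · have := hcast _ _ (by omega) (by omega) g; omega
    subst hl hb
    have p0 := hv.pos_nonneg b
    have p1 : pos v b < pos v k := hv.mono (by omega)
    have p2 : pos v k < pos v l := hv.mono (by omega)
    have p3 : pos v (l + 1) < pos v N := hv.mono (by omega)
    have p4 : pos v N < pos v n := hv.mono (by omega)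
    have p5 : pos v (n + n) = pos v n + pos v n := pos_add_n n
    have p6 := pos_add_n (v := v) k
    have p7 := pos_add_n (v := v) l
    obtain ⟨r, hr⟩ : ∃ r, (r, ({Sum.inl (k : ZMod n), Sum.inl (l : ZMod n)} : Set _)) ∈
        legType v (pos v b) (pos v k + pos v l - pos v b) := by
      refine ⟨_, pos v k - pos v b, ⟨by linarith, by linarith, Or.inr (Or.inl ?_)⟩,
        Prod.ext rfl ?_⟩
      · rw [add_sub_cancel, hv.elem_pos]; rfl
      · simp only
        rw [add_sub_cancel,
          show pos v k + pos v l - pos v b - (pos v k - pos v b) = pos v l by ring,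
          hv.elem_pos, hv.elem_pos]
    have hmem : legType v (pos v b) (pos v k + pos v l - pos v b) ∈
        ({legType v (pos v b) (pos v k' + pos v l - pos v b),
          legType v (pos v k' + pos v l - pos v b) (pos v N),
          legType v (pos v N) (pos v b + pos v n)} : Multiset _) := by
      rw [← c2]; simp
    simp only [Multiset.insert_eq_cons, Multiset.mem_cons, Multiset.mem_singleton] at hmem
    rcases hmem with g | g | g <;> rw [g] at hr <;>
      obtain ⟨y, y', a1, a2, a3, a4, a5, a6, a7⟩ := label_mem hr <;>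
      rcases hv.elem_eq_inl (by linarith) (by linarith) (by omega) a6 with b1 | b1 <;>
      rcases hv.elem_eq_inl (by linarith) (by linarith) (by omega) a7 with b2 | b2 <;>
      first
        | (exfalso; linarith)
        | (have : k = k' := hv.mono.injective (by linarith)
           rw [this])
  refine le_trans (le_of_eq ?_) (Set.encard_le_encard hsub)
  rw [hinj.encard_image, Set.encard_coe_eq_coe_finsetCard, hD, card_product, card_product,
    Nat.card_Icc, Nat.card_Icc, Nat.card_Icc]
  congr 1
  rw [show m + 1 - 1 = m by omega, show 2 * m + 1 - (m + 1) = m by omega,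
    show 3 * m + 1 - (2 * m + 1) = m by omega]
  ring

theorem exists_many {m : ℕ} (hm : 3 * m + 3 ≤ n) : ∃ v : ZMod n → ℂ, IsSimple v ∧ IsCCW v ∧
    ((m ^ 3 : ℕ) : ℕ∞) ≤ {τ | ∃ a b c, IsY v a b c ∧ τ = yType v a b c}.encard := by
  have hev : ∀ᶠ X : ℝ in Filter.atTop, (2 : ℝ) ^ n < X ∧ ∀ b ∈ range n,
      π / 2 - (Real.arctan (2 ^ (b + 1) + 2 ^ (b + 2)) - Real.arctan (2 ^ b + 2 ^ (b + 1))) <
        Real.arctan (1 + X) := by
    refine (Filter.eventually_gt_atTop _).and ((Filter.eventually_all_finset _).mpr ?_)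
    intro b _
    have h1 : Real.arctan (2 ^ b + 2 ^ (b + 1)) < Real.arctan (2 ^ (b + 1) + 2 ^ (b + 2)) := by
      apply arctan_strictMono
      have : (0 : ℝ) < 2 ^ b := by positivity
      rw [pow_add, pow_add]; linarith
    have h2 : Filter.Tendsto (fun X : ℝ => Real.arctan (1 + X)) Filter.atTop (nhds (π / 2)) :=
      (tendsto_nhds_of_tendsto_nhdsWithin tendsto_arctan_atTop).comp
        (Filter.tendsto_atTop_add_const_left _ _ Filter.tendsto_id)
    exact h2.eventually (lt_mem_nhds (by linarith))
  obtain ⟨X, hX1, hX2⟩ := hev.exists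
  set x : ℕ → ℝ := fun k => if k + 1 < n then 2 ^ k else X with hxdef
  have hx1 : ∀ k, k + 1 < n → x k = 2 ^ k := fun k hk => if_pos hk
  have hx : ∀ i j, i < j → j < n → x i < x j := by
    intro i j h1 h2
    rw [hx1 i (by omega)]
    by_cases h : j + 1 < n
    · rw [hx1 j h]; exact pow_lt_pow_right₀ (by norm_num) h1
    · rw [show x j = X from if_neg h]
      exact (pow_lt_pow_right₀ (by norm_num) (by omega)).trans hX1
  have hv : Good (poly n x) := ⟨poly_simple (by omega) hx, by omega⟩
  refine ⟨poly n x, hv.simple, poly_ccw (by omega) hx, ?_⟩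
  obtain ⟨k, hk⟩ : ∃ k, k + 2 = n := ⟨n - 2, by omega⟩
  apply hv.many (poly_convex (by omega) hx) (N := k + 1) (by omega) (by omega)
  · intro b h1 h2
    obtain ⟨b, rfl⟩ : ∃ b', b = b' + 1 := ⟨b - 1, by omega⟩
    have g1 := tau_apex hx hk (by omega)
    have g2 := hX2 b (by rw [mem_range]; omega)
    rw [hx1 0 (by omega), show x (k + 1) = X from if_neg (by omega), pow_zero] at g1
    rw [tau_mid hx (by omega), hx1 b (by omega), hx1 (b + 1) (by omega), hx1 (b + 2) (by omega)]
    linarith
  · have hlen : ∀ j, j + 2 < n → ‖poly n x (j + 1) - poly n x j‖ =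
        ‖par (2 ^ (j + 1)) - par (2 ^ j)‖ := by
      intro j hj
      rw [← Nat.cast_succ, poly_nat (by omega), poly_nat (by omega), hx1 _ (by omega),
        hx1 _ (by omega)]
    have hdouble : ∀ j : ℕ, 2 * ‖par (2 ^ (j + 1)) - par (2 ^ j)‖ ≤
        ‖par (2 ^ (j + 1 + 1)) - par (2 ^ (j + 1))‖ := by
      intro j
      apply le_of_sq_le_sq _ (norm_nonneg _)
      rw [mul_pow, ← normSq_eq_norm_sq, ← normSq_eq_norm_sq]
      simp only [par, normSq_apply, sub_re, sub_im, pow_succ]
      have : (0 : ℝ) < 2 ^ j := by positivity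
      generalize (2 : ℝ) ^ j = y at this
      have h4 : 0 ≤ y * y * (y * y) := by positivity
      nlinarith
    intro l hl
    rw [pos_succ, add_lt_add_iff_left]
    induction l with
    | zero => rw [pos_zero]; exact hv.edge_pos _
    | succ l ih =>
      have h1 := ih (by omega)
      rw [pos_succ, hlen (l + 1) (by omega)]
      rw [hlen l (by omega)] at h1 ⊢
      linarith [hdouble l]

end Pool.Agent.P.MP_d9fc2a_co
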