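import Pool.Agent.P.MP_d9fc2a_co.Upper
import Pool.Agent.P.MP_d9fc2a_co.Lower

namespace Pool.Agent.P.MP_d9fc2a_co

theorem maxY_theta (n : ℕ) (hn : 18 ≤ n) :
    (n : ℕ∞) ^ 3 ≤ 64 * maxY n ∧ maxY n ≤ 831 * (n : ℕ∞) ^ 3 := by
  constructor
  · obtain ⟨v, h1, h2, h3⟩ := exists_many (n := n) (m := n / 3 - 1) (by omega)
    have h4 : (((n / 3 - 1) ^ 3 : ℕ) : ℕ∞) ≤ maxY n :=
      h3.trans (le_iSup₂_of_le v ⟨h1, h2⟩ le_rfl)
    refine le_trans ?_ (mul_le_mul_right h4 64)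
    have h5 : n ^ 3 ≤ 64 * (n / 3 - 1) ^ 3 := by
      have h6 : n ≤ 4 * (n / 3 - 1) := by omega
      calc n ^ 3 ≤ (4 * (n / 3 - 1)) ^ 3 := Nat.pow_le_pow_left h6 3
        _ = 64 * (n / 3 - 1) ^ 3 := by ring
    exact_mod_cast h5
  · refine iSup₂_le fun v hv => ?_
    have := Good.upper (v := v) ⟨hv.1, by omega⟩
    exact_mod_cast this

end Pool.Agent.P.MP_d9fc2a_co
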