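import Pool.Agent.P.MP_d9fc2a_co.Defs

namespace Pool.Agent.P.MP_d9fc2a_co

open Real Complex Finset

lemma arg_div_of_re_pos {z z' : ℂ} (hz : 0 < z.re) (hz' : 0 < z'.re) :
    arg (z' / z) = arg z' - arg z := by
  have h0 : z ≠ 0 := by rintro rfl; simp at hz
  have h0' : z' ≠ 0 := by rintro rfl; simp at hz'
  have h1 := abs_lt.mp (abs_arg_lt_pi_div_two_iff.mpr (Or.inl hz))
  have h2 := abs_lt.mp (abs_arg_lt_pi_div_two_iff.mpr (Or.inl hz'))
  have h3 := arg_div_coe_angle h0' h0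
  rw [← Real.Angle.coe_sub, arg_coe_angle_eq_iff_eq_toReal] at h3
  rw [h3, Real.Angle.toReal_coe_eq_self_iff]
  constructor <;> linarith [h1.1, h1.2, h2.1, h2.2]

lemma arg_div_half {u z z' : ℂ} (hz : 0 < (u * z).re) (hz' : 0 < (u * z').re) :
    arg (z' / z) = arg (u * z') - arg (u * z) := by
  have hu : u ≠ 0 := by rintro rfl; simp at hz
  rw [← arg_div_of_re_pos hz hz', mul_div_mul_left _ _ hu]

lemma exists_mul_re (f : StrongDual ℝ ℂ) : ∃ u : ℂ, ∀ z, f z = (u * z).re := by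
  refine ⟨⟨f 1, -f I⟩, fun z => ?_⟩
  have : z = z.re • (1 : ℂ) + z.im • I := by
    simp
  conv_lhs => rw [this, map_add, map_smul, map_smul]
  simp [mul_comm]

/-- turning angle at index `k` of a chain -/
noncomputable def turn (w : ℕ → ℂ) (k : ℕ) : ℝ := arg ((w (k + 1) - w k) / (w k - w (k - 1)))

lemma chain_sum (w : ℕ → ℂ) (s m : ℕ)
    (H1 : ∀ i j, s ≤ i → i + 1 < j → j + 1 ≤ s + 1 + m → ∃ u : ℂ, 0 < (u * (w j - w i)).re ∧
      0 < (u * (w (j + 1) - w i)).re ∧ 0 < (u * (w j - w (i + 1))).re ∧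
      0 < (u * (w (j + 1) - w (i + 1))).re)
    (H2 : ∀ i, s ≤ i → i + 2 ≤ s + 1 + m → ∃ u : ℂ, 0 < (u * (w (i + 1) - w i)).re ∧
      0 < (u * (w (i + 2) - w (i + 1))).re) :
    ∑ k ∈ range m, turn w (s + 1 + k) =
      ∑ k ∈ range m, arg ((w (s + 1 + k + 1) - w s) / (w (s + 1 + k) - w s)) +
      ∑ k ∈ range m, arg ((w (s + 1 + m) - w (s + k + 1)) / (w (s + 1 + m) - w (s + k))) := by
  induction m with
  | zero => simp
  | succ m ih =>
    have ih' := ih (fun i j h1 h2 h3 => H1 i j h1 h2 (by omega))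
      (fun i h1 h2 => H2 i h1 (by omega))
    set t := s + 1 + m with ht
    have hcell : ∀ k ∈ range m,
        arg ((w (t + 1) - w (s + k + 1)) / (w (t + 1) - w (s + k))) =
          arg ((w t - w (s + k + 1)) / (w t - w (s + k))) +
          (arg ((w (t + 1) - w (s + (k + 1))) / (w t - w (s + (k + 1)))) -
            arg ((w (t + 1) - w (s + k)) / (w t - w (s + k)))) := by
      intro k hk
      rw [mem_range] at hk
      obtain ⟨u, g1, g2, g3, g4⟩ := H1 (s + k) t (by omega) (by omega) (by omega)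
      rw [← add_assoc s k 1, arg_div_half g2 g4, arg_div_half g1 g3, arg_div_half g3 g4,
        arg_div_half g1 g2]
      ring
    have hdiag : turn w t = arg ((w (t + 1) - w (s + m)) / (w t - w (s + m))) +
        arg ((w (t + 1) - w (s + m + 1)) / (w (t + 1) - w (s + m))) := by
      obtain ⟨u, g1, g2⟩ := H2 (s + m) (by omega) (by omega)
      have e1 : s + m + 1 = t := by omega
      have e2 : s + m + 2 = t + 1 := by omega
      rw [e1] at g1
      rw [e1, e2] at g2
      have g3 : 0 < (u * (w (t + 1) - w (s + m))).re := by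
        have : u * (w (t + 1) - w (s + m)) = u * (w t - w (s + m)) + u * (w (t + 1) - w t) := by
          ring
        rw [this, add_re]; linarith
      rw [turn, e1, show t - 1 = s + m by omega, arg_div_half g1 g2, arg_div_half g1 g3,
        arg_div_half g3 g2]
      ring
    rw [sum_range_succ, sum_range_succ, sum_range_succ, ih', ← ht,
      show s + 1 + (m + 1) = t + 1 by omega, sum_congr rfl hcell, sum_add_distrib,
      sum_range_sub (fun k => arg ((w (t + 1) - w (s + k)) / (w t - w (s + k)))), hdiag]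
    simp only [Nat.add_zero]
    ring

lemma sum_half_lt (z : ℕ → ℂ) (u : ℂ) (m : ℕ) (h : ∀ k ≤ m, 0 < (u * z k).re) :
    ∑ k ∈ range m, arg (z (k + 1) / z k) < π := by
  rw [sum_congr rfl (fun k hk => arg_div_half (h k (by rw [mem_range] at hk; omega))
    (h (k + 1) (by rw [mem_range] at hk; omega))),
    sum_range_sub (fun k => arg (u * z k))]
  have h1 := abs_lt.mp (abs_arg_lt_pi_div_two_iff.mpr (Or.inl (h m le_rfl)))
  have h2 := abs_lt.mp (abs_arg_lt_pi_div_two_iff.mpr (Or.inl (h 0 (by omega))))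
  linarith [h1.2, h2.1]

lemma re_pos_of_far {O p q : ℂ} (h : ‖q - O‖ ≤ ‖p - O‖) (hne : q ≠ p) :
    0 < ((starRingEnd ℂ) (O - p) * (q - p)).re := by
  have h1 : normSq (q - O) ≤ normSq (p - O) := by
    rw [normSq_eq_norm_sq, normSq_eq_norm_sq]
    exact pow_le_pow_left₀ (norm_nonneg _) h 2
  have h2 : 0 < normSq (q - p) := normSq_pos.mpr (sub_ne_zero.mpr hne)
  simp only [normSq_apply, sub_re, sub_im, mul_re, conj_re, conj_im] at h1 h2 ⊢
  nlinarith

variable {n : ℕ} {v : ZMod n → ℂ}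

lemma cast_ne {i j : ℕ} (h1 : i < j) (h2 : j < i + n) : (i : ZMod n) ≠ (j : ZMod n) := by
  intro h
  rw [ZMod.natCast_eq_natCast_iff] at h
  have h3 := (Nat.modEq_iff_dvd' h1.le).mp h
  have h4 := Nat.le_of_dvd (by omega) h3
  omega

lemma IsSimple.inj (hv : IsSimple v) : Function.Injective v := by
  intro i j h
  exact (hv i j 0 0 le_rfl one_pos le_rfl one_pos (by simpa using h)).1

lemma IsSimple.mem_segment (hv : IsSimple v) {i j : ZMod n} {z : ℂ}
    (hi : z ∈ segment ℝ (v i) (v (i + 1))) (hj : z ∈ segment ℝ (v j) (v (j + 1))) :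
    i = j ∨ i + 1 = j ∨ i = j + 1 := by
  have key : ∀ k : ZMod n, z ∈ segment ℝ (v k) (v (k + 1)) → ∃ (k' : ZMod n) (s : ℝ),
      (k' = k ∨ k' = k + 1) ∧ 0 ≤ s ∧ s < 1 ∧ z = v k' + s • (v (k' + 1) - v k') := by
    intro k hk
    rw [segment_eq_image'] at hk
    obtain ⟨s, ⟨h0, h1⟩, rfl⟩ := hk
    rcases h1.lt_or_eq with h | h
    · exact ⟨k, s, Or.inl rfl, h0, h, rfl⟩
    · exact ⟨k + 1, 0, Or.inr rfl, le_rfl, one_pos, by simp [h]⟩
  obtain ⟨i', s, g1, g2, g3, g4⟩ := key i hi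
  obtain ⟨j', t, g5, g6, g7, g8⟩ := key j hj
  have h := (hv i' j' s t g2 g3 g6 g7 (g4.symm.trans g8)).1
  rcases g1 with g1 | g1 <;> rcases g5 with g5 | g5
  · left; rw [← g1, ← g5, h]
  · right; right; rw [← g1, ← g5, h]
  · right; left; rw [← g1, ← g5, h]
  · left; rw [g1, g5] at h; exact add_right_cancel h

lemma IsSimple.cell (hv : IsSimple v) {i j : ℕ} (h1 : i + 1 < j) (h2 : j + 1 < i + n) :
    ∃ u : ℂ, 0 < (u * (v j - v i)).re ∧ 0 < (u * (v (j + 1 : ℕ) - v i)).re ∧
      0 < (u * (v j - v (i + 1 : ℕ))).re ∧ 0 < (u * (v (j + 1 : ℕ) - v (i + 1 : ℕ))).re := by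
  have hd : Disjoint (segment ℝ (v i) (v (i + 1))) (segment ℝ (v j) (v (j + 1))) := by
    rw [Set.disjoint_left]
    intro z hi hj
    rcases hv.mem_segment hi hj with h | h | h
    · exact cast_ne (i := i) (j := j) (n := n) (by omega) (by omega) h
    · exact cast_ne (i := i + 1) (j := j) (n := n) (by omega) (by omega) (by push_cast; exact h)
    · exact cast_ne (i := i) (j := j + 1) (n := n) (by omega) (by omega) (by push_cast; exact h)
  have hc : ∀ a b : ℂ, IsCompact (segment ℝ a b) := fun a b => by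
    rw [segment_eq_image']
    exact isCompact_Icc.image (by fun_prop)
  obtain ⟨f, a, b, g1, g2, g3⟩ := geometric_hahn_banach_compact_closed (convex_segment _ _)
    (hc _ _) (convex_segment _ _) (hc _ _).isClosed hd
  obtain ⟨u, hu⟩ := exists_mul_re f
  have a1 := g1 _ (left_mem_segment ℝ _ _)
  have a2 := g1 _ (right_mem_segment ℝ _ _)
  have b1 := g3 _ (left_mem_segment ℝ _ _)
  have b2 := g3 _ (right_mem_segment ℝ _ _)
  refine ⟨u, ?_, ?_, ?_, ?_⟩ <;> rw [← hu, map_sub] <;> push_cast <;> linarith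

lemma IsSimple.corner (hv : IsSimple v) (hn : 2 ≤ n) (i : ZMod n) :
    ∃ u : ℂ, 0 < (u * (v (i + 1) - v i)).re ∧ 0 < (u * (v (i + 1 + 1) - v (i + 1))).re := by
  have hne : ∀ k : ZMod n, k ≠ k + 1 := by
    intro k h
    have h1 : ((0 : ℕ) : ZMod n) = ((1 : ℕ) : ZMod n) := by
      push_cast; linear_combination h
    exact cast_ne (by omega) (by omega) h1
  have h0 : (0 : ℂ) ∉ segment ℝ (v (i + 1) - v i) (v (i + 1 + 1) - v (i + 1)) := by
    rintro ⟨a, b, ha, hb, hab, h⟩
    have ha' : a ≠ 0 := by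
      rintro rfl
      rw [zero_add] at hab
      rw [hab, zero_smul, one_smul, zero_add, sub_eq_zero] at h
      exact hne _ (hv.inj h).symm
    have hapos : 0 < a := lt_of_le_of_ne ha ha'.symm
    have := (hv i (i + 1) (1 - a / 2) (b / 2) (by linarith) (by linarith) (by linarith)
      (by linarith) (by
        simp only [real_smul] at h ⊢
        push_cast
        linear_combination (-1 / 2 : ℂ) * h)).1
    exact hne i this
  have hc : IsCompact (segment ℝ (v (i + 1) - v i) (v (i + 1 + 1) - v (i + 1))) := by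
    rw [segment_eq_image']
    exact isCompact_Icc.image (by fun_prop)
  obtain ⟨f, a, g1, g2⟩ := geometric_hahn_banach_point_closed (convex_segment _ _) hc.isClosed h0
  obtain ⟨u, hu⟩ := exists_mul_re f
  rw [map_zero] at g1
  refine ⟨u, ?_, ?_⟩ <;> rw [← hu]
  · exact g1.trans (g2 _ (left_mem_segment ℝ _ _))
  · exact g1.trans (g2 _ (right_mem_segment ℝ _ _))

/-- turning angle at a vertex -/
noncomputable def tau (v : ZMod n → ℂ) (i : ZMod n) : ℝ :=
  arg ((v (i + 1) - v i) / (v i - v (i - 1)))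

lemma tau_lt_pi (hv : IsSimple v) (hn : 2 ≤ n) (i : ZMod n) : tau v i < π := by
  obtain ⟨u, h1, h2⟩ := hv.corner hn (i - 1)
  rw [sub_add_cancel] at h1 h2
  rw [tau, arg_div_half h1 h2]
  have g1 := abs_lt.mp (abs_arg_lt_pi_div_two_iff.mpr (Or.inl h1))
  have g2 := abs_lt.mp (abs_arg_lt_pi_div_two_iff.mpr (Or.inl h2))
  linarith [g1.1, g2.2]

lemma chain_lt (hv : IsSimple v) (hn : 2 ≤ n) (s m : ℕ) (hm : m + 1 < n) {O O' : ℂ}
    (hs : ∀ k, ‖v k - O‖ ≤ ‖v s - O‖) (ht : ∀ k, ‖v k - O'‖ ≤ ‖v (s + 1 + m : ℕ) - O'‖) :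
    ∑ k ∈ range m, tau v (s + 1 + k : ℕ) < 2 * π := by
  have h := chain_sum (fun k : ℕ => v k) s m
    (fun i j h1 h2 h3 => hv.cell h2 (by omega))
    (fun i h1 h2 => by
      have := hv.corner hn i
      push_cast
      rwa [add_assoc (i : ZMod n) 1 1, one_add_one_eq_two] at this)
  have e : ∀ k, turn (fun k : ℕ => v k) (s + 1 + k) = tau v (s + 1 + k : ℕ) := by
    intro k
    unfold turn tau
    rw [show s + 1 + k - 1 = s + k by omega]
    push_cast
    congr 4
    ring
  rw [sum_congr rfl (fun k _ => e k)] at h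
  rw [h]
  have h1 := sum_half_lt (fun k => v (s + 1 + k : ℕ) - v s) ((starRingEnd ℂ) (O - v s)) m
    (fun k hk => re_pos_of_far (hs _)
      (fun he => cast_ne (by omega) (by omega) (hv.inj he).symm))
  have h2 := sum_half_lt (fun k => v (s + 1 + m : ℕ) - v (s + k : ℕ))
    (-(starRingEnd ℂ) (O' - v (s + 1 + m : ℕ))) m
    (fun k hk => by
      have := re_pos_of_far (ht (s + k : ℕ))
        (fun he => cast_ne (by omega) (by omega) (hv.inj he))
      rwa [← neg_mul_neg, neg_sub] at this)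
  have h3 := add_lt_add h1 h2
  rw [← two_mul] at h3
  exact h3

lemma sum_shift (g : ZMod n → ℝ) (s : ℕ) :
    ∑ k ∈ range n, g (s + k : ℕ) = ∑ k ∈ range n, g k := by
  induction s with
  | zero => simp
  | succ s ih =>
    rw [← ih]
    have h1 := sum_range_succ (fun k => g (s + k : ℕ)) n
    have h2 := sum_range_succ' (fun k => g (s + k : ℕ)) n
    have h3 : g (s + n : ℕ) = g (s + 0 : ℕ) := by simp
    rw [h3] at h1
    have h4 := add_right_cancel (h1.symm.trans h2)
    rw [h4]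
    apply sum_congr rfl
    intro k _
    congr 2; ring

/-- the total turning of a simple polygon is bounded -/
lemma total_turn_le (hv : IsSimple v) (hn : 2 ≤ n) (s0 : ℕ) :
    ∑ k ∈ range n, tau v (s0 + k : ℕ) ≤ 6 * π := by
  have : NeZero n := ⟨by omega⟩
  obtain ⟨i, -, hi⟩ := exists_max_image (univ : Finset (ZMod n)) (fun k => ‖v k - 0‖)
    univ_nonempty
  obtain ⟨j, -, hj⟩ := exists_max_image (univ : Finset (ZMod n)) (fun k => ‖v k - v i‖)
    univ_nonempty
  have hij : j ≠ i := by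
    intro he
    have h1 := hj (i + 1) (mem_univ _)
    rw [he, sub_self, norm_zero, norm_le_zero_iff, sub_eq_zero] at h1
    have h2 := hv.inj h1
    have h3 : ((0 : ℕ) : ZMod n) = ((1 : ℕ) : ZMod n) := by
      push_cast; linear_combination -h2
    exact cast_ne (by omega) (by omega) h3
  set s := i.val with hs
  have hsi : (s : ZMod n) = i := ZMod.natCast_zmod_val i
  obtain ⟨m, hm⟩ : ∃ m, (j - i).val = m + 1 :=
    Nat.exists_eq_succ_of_ne_zero (by rw [Ne, ZMod.val_eq_zero, sub_eq_zero]; exact hij)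
  have hmn : m + 1 < n := hm ▸ ZMod.val_lt _
  have htj : ((s + 1 + m : ℕ) : ZMod n) = j := by
    rw [add_assoc, add_comm 1 m, ← hm]
    push_cast
    rw [hsi, ZMod.natCast_zmod_val]; ring
  obtain ⟨m', hm'⟩ : ∃ m', n = m + 1 + m' + 1 := ⟨n - m - 2, by omega⟩
  have hback : ((s + 1 + m + 1 + m' : ℕ) : ZMod n) = i := by
    rw [show s + 1 + m + 1 + m' = s + n by omega]
    simp [hsi]
  have c1 := chain_lt hv hn s m hmn (O := 0) (O' := v i)
    (fun k => hsi ▸ hi k (mem_univ _)) (fun k => htj ▸ hj k (mem_univ _))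
  have c2 := chain_lt hv hn (s + 1 + m) m' (by omega) (O := v i) (O' := 0)
    (fun k => htj ▸ hj k (mem_univ _)) (fun k => hback ▸ hi k (mem_univ _))
  rw [sum_shift, ← sum_shift _ (s + 1)]
  have e : ∑ k ∈ range n, tau v (s + 1 + k : ℕ) =
      ∑ k ∈ range (m + 1 + m' + 1), tau v (s + 1 + k : ℕ) := by rw [← hm']
  rw [e, sum_range_succ, sum_range_add, sum_range_succ]
  have e2 : ∑ k ∈ range m', tau v (s + 1 + (m + 1 + k) : ℕ) =
      ∑ k ∈ range m', tau v (s + 1 + m + 1 + k : ℕ) :=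
    sum_congr rfl fun k _ => by congr 2; ring
  rw [e2]
  linarith [tau_lt_pi hv hn (s + 1 + m : ℕ), tau_lt_pi hv hn (s + 1 + (m + 1 + m') : ℕ)]

end Pool.Agent.P.MP_d9fc2a_co
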