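import Pool.Agent.P.MP_d9fc2a_co.Elem

namespace Pool.Agent.P.MP_d9fc2a_co

open Real Finset

variable {n : ℕ} {v : ZMod n → ℂ}

/-- a normalised gluing: the vertices `i`, `j` and the point `x` form the branch node -/
structure G (v : ZMod n → ℂ) (i j : ℕ) (x : ℝ) : Prop where
  hi : i < n
  hij : i < j
  hj : j < i + n
  hx1 : pos v j < x
  hx2 : x < pos v (i + n)
  hang : ang v (pos v i) + ang v (pos v j) + ang v x ≤ 2 * π
  l1 : LegOK v (pos v i) (pos v j)
  l2 : LegOK v (pos v j) x
  l3 : LegOK v x (pos v (i + n))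

lemma Good.rot (hv : Good v) {a b c : ℝ} (ha : 0 ≤ a) (hab : a ≤ b) :
    yType v b c (a + pos v n) = yType v a b c := by
  unfold yType
  rw [hv.elem_add ha, hv.legType_add ha hab]
  refine Prod.ext ?_ ?_
  · ext e; simp only [Set.mem_insert_iff, Set.mem_singleton_iff]; tauto
  · simp only [Multiset.insert_eq_cons, ← Multiset.cons_zero]
    rw [Multiset.cons_swap (legType v c (a + pos v n)), Multiset.cons_swap (legType v b c)]

lemma Good.normalize (hv : Good v) {a b c : ℝ} (h : IsY v a b c) :
    ∃ i j x, G v i j x ∧ yType v a b c = yType v (pos v i) (pos v j) x := by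
  obtain ⟨h0, h1, h2, h3, h4, l1, l2, l3⟩ := h
  have hL := hv.L_pos
  have ga := hv.ang_gt h0
  have gb := hv.ang_gt (x := b) (by linarith)
  have gc := hv.ang_gt (x := c) (by linarith)
  by_cases ha : ∃ k, a = pos v k
  · obtain ⟨i, rfl⟩ := ha
    by_cases hb : ∃ k, b = pos v k
    · obtain ⟨j, rfl⟩ := hb
      have hi : i < n := hv.mono.lt_iff_lt.mp (by linarith)
      have hj : j < n := hv.mono.lt_iff_lt.mp (by linarith)
      exact ⟨i, j, c, ⟨hi, hv.mono.lt_iff_lt.mp h1, by omega, h2, by rw [pos_add_n]; linarith,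
        h4, l1, l2, by rw [pos_add_n]; exact l3⟩, rfl⟩
    · by_cases hc : ∃ k, c = pos v k
      · obtain ⟨j, rfl⟩ := hc
        have hj : j < n := hv.mono.lt_iff_lt.mp h3
        have hij : i < j := hv.mono.lt_iff_lt.mp (by linarith)
        refine ⟨j, i + n, b + pos v n, ⟨hj, by omega, by omega, by rw [pos_add_n]; linarith,
          by rw [pos_add_n]; linarith, ?_, by rw [pos_add_n]; exact l3, ?_, ?_⟩, ?_⟩
        · rw [pos_add_n, hv.ang_add h0, hv.ang_add (by linarith)]; linarith
        · rw [pos_add_n]; exact hv.legOK_add h0 h1.le l1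
        · rw [pos_add_n]; exact hv.legOK_add (by linarith) h2.le l2
        · rw [pos_add_n, hv.rot (by linarith) h2.le, hv.rot h0 h1.le]
      · push Not at hb hc
        rw [hv.ang_edge (by linarith) hb, hv.ang_edge (by linarith) hc] at h4
        linarith
  · push Not at ha
    rw [hv.ang_edge h0 ha] at h4
    by_cases hb : ∃ k, b = pos v k
    · by_cases hc : ∃ k, c = pos v k
      · obtain ⟨i, rfl⟩ := hb
        obtain ⟨j, rfl⟩ := hc
        have hj : j < n := hv.mono.lt_iff_lt.mp h3
        have hij : i < j := hv.mono.lt_iff_lt.mp h2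
        refine ⟨i, j, a + pos v n, ⟨by omega, hij, by omega, by linarith,
          by rw [pos_add_n]; linarith, ?_, l2, l3, ?_⟩, (hv.rot h0 h1.le).symm⟩
        · rw [hv.ang_add h0, hv.ang_edge h0 ha]; linarith
        · rw [pos_add_n]; exact hv.legOK_add h0 h1.le l1
      · push Not at hc
        rw [hv.ang_edge (by linarith) hc] at h4
        linarith
    · push Not at hb
      rw [hv.ang_edge (by linarith) hb] at h4
      linarith

lemma encard_image_le_of_sig {β : Type} (S : Set ℝ) (F : ℝ → β) (σ : ℝ → ℕ) (N : ℕ)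
    (h1 : ∀ x ∈ S, σ x < N) (h2 : ∀ x ∈ S, ∀ y ∈ S, σ x = σ y → F x = F y) :
    (F '' S).encard ≤ N := by
  classical
  have hsub : F '' S ⊆ (fun m => F (if h : ∃ x ∈ S, σ x = m then h.choose else 0)) ''
      (Finset.range N : Set ℕ) := by
    rintro _ ⟨x, hx, rfl⟩
    refine ⟨σ x, by simpa using h1 x hx, ?_⟩
    have hex : ∃ y ∈ S, σ y = σ x := ⟨x, hx, rfl⟩
    simp only [dif_pos hex]
    exact h2 _ hex.choose_spec.1 _ hx hex.choose_spec.2
  refine (Set.encard_le_encard hsub).trans ((Set.encard_image_le _ _).trans ?_)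
  rw [Set.encard_coe_eq_coe_finsetCard, card_range]

lemma sig_spec (K : Finset ℝ) {x y : ℝ}
    (h : (K.filter (· < x)).card + (K.filter (· ≤ x)).card =
      (K.filter (· < y)).card + (K.filter (· ≤ y)).card) :
    ∀ c ∈ K, (c < x ↔ c < y) ∧ (x < c ↔ y < c) := by
  wlog hxy : x ≤ y generalizing x y
  · intro c hc
    have := this h.symm (by linarith) c hc
    exact ⟨this.1.symm, this.2.symm⟩
  have s1 : K.filter (· < x) ⊆ K.filter (· < y) := fun c hc => by
    rw [mem_filter] at hc ⊢; exact ⟨hc.1, lt_of_lt_of_le hc.2 hxy⟩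
  have s2 : K.filter (· ≤ x) ⊆ K.filter (· ≤ y) := fun c hc => by
    rw [mem_filter] at hc ⊢; exact ⟨hc.1, hc.2.trans hxy⟩
  have c1 := card_le_card s1
  have c2 := card_le_card s2
  have e1 := eq_of_subset_of_card_le s1 (by omega)
  have e2 := eq_of_subset_of_card_le s2 (by omega)
  intro c hc
  have m1 : c ∈ K.filter (· < x) ↔ c ∈ K.filter (· < y) := by rw [e1]
  have m2 : c ∈ K.filter (· ≤ x) ↔ c ∈ K.filter (· ≤ y) := by rw [e2]
  simp only [mem_filter, hc, true_and] at m1 m2
  exact ⟨m1, by rw [← not_le, ← not_le, m2]⟩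

/-- the types with the vertices `i`, `j` at the branch node -/
def Ty (v : ZMod n → ℂ) (i j : ℕ) := (yType v (pos v i) (pos v j)) '' {x | G v i j x}

lemma Good.Ty_le (hv : Good v) (i j : ℕ) : (Ty v i j).encard ≤ (21 * n ^ 2 : ℕ) := by
  classical
  set R := range (2 * n) with hR
  set K : Finset ℝ := R.image (pos v) ∪
    ((R ×ˢ R).image (fun kl => pos v kl.1 + pos v kl.2 - pos v j) ∪
      (R ×ˢ R).image (fun kl => pos v kl.1 + pos v kl.2 - pos v (i + n))) with hK
  have hKc : K.card ≤ 2 * n + (2 * n * (2 * n) + 2 * n * (2 * n)) := by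
    refine (card_union_le _ _).trans (add_le_add ?_ ((card_union_le _ _).trans (add_le_add ?_ ?_)))
    · exact card_image_le.trans (by simp [hR])
    · exact card_image_le.trans (by simp [hR])
    · exact card_image_le.trans (by simp [hR])
  apply encard_image_le_of_sig _ _
    (fun x => (K.filter (· < x)).card + (K.filter (· ≤ x)).card)
  · intro x _
    have h1 := card_filter_le K (· < x)
    have h2 := card_filter_le K (· ≤ x)
    have := hv.two
    nlinarith
  · intro x hx y hy h
    have hs := sig_spec K h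
    have hx' : G v i j x := hx
    have hy' : G v i j y := hy
    have hlt : ∀ k, pos v k < pos v (i + n) → k ∈ R := fun k hk => by
      have := hv.mono.lt_iff_lt.mp hk
      have := hx'.hi
      rw [hR, mem_range]; omega
    have hk : ∀ k, (pos v k < x ↔ pos v k < y) ∧ (x < pos v k ↔ y < pos v k) := by
      intro k
      by_cases g : pos v k < pos v (i + n)
      · exact hs _ (mem_union_left _ (mem_image_of_mem _ (hlt k g)))
      · have := hx'.hx2
        have := hy'.hx2
        constructor <;> constructor <;> intro <;> linarith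
    have hj0 := hv.pos_nonneg j
    unfold yType
    rw [hv.elem_congr (by linarith [hx'.hx1]) hk, ← pos_add_n,
      hv.legType_congr hj0 hx'.hx1 hj0 hy'.hx1 (fun _ => Iff.rfl) (fun k => (hk k).1),
      hv.legType_congr (by linarith [hx'.hx1]) hx'.hx2 (by linarith [hy'.hx1]) hy'.hx2
        (fun k => (hk k).2) (fun _ => Iff.rfl)]
    · intro k l _ a2 _ a4
      have := hs _ (mem_union_right _ (mem_union_right _ (mem_image_of_mem _
        (mk_mem_product (hlt k a2) (hlt l a4)))))
      simp only at this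
      constructor <;> constructor <;> intro g
      · linarith [this.1.mp (by linarith)]
      · linarith [this.1.mpr (by linarith)]
      · linarith [this.2.mp (by linarith)]
      · linarith [this.2.mpr (by linarith)]
    · intro k l _ a2 _ a4
      have := hs _ (mem_union_right _ (mem_union_left _ (mem_image_of_mem _
        (mk_mem_product (hlt k (a2.trans hx'.hx2)) (hlt l (a4.trans hx'.hx2))))))
      simp only at this
      constructor <;> constructor <;> intro g
      · linarith [this.1.mp (by linarith)]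
      · linarith [this.1.mpr (by linarith)]
      · linarith [this.2.mp (by linarith)]
      · linarith [this.2.mpr (by linarith)]

lemma LegOK.pair {p q y : ℝ} (h : LegOK v p q) (h1 : p < y) (h2 : y < q) (h3 : y ≠ (p + q) / 2) :
    ang v y + ang v (p + q - y) ≤ 2 * π := by
  rcases lt_or_gt_of_ne h3 with g | g
  · have := h.1 (y - p) (by linarith) (by linarith)
    rwa [show p + (y - p) = y by ring, show q - (y - p) = p + q - y by ring] at this
  · have := h.1 (q - y) (by linarith) (by linarith)
    rw [show p + (q - y) = p + q - y by ring, show q - (q - y) = y by ring] at this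
    linarith

lemma Good.partner (hv : Good v) {p q : ℝ} (hp : 0 ≤ p) (h : LegOK v p q) {k : ℕ}
    (h1 : p < pos v k) (h2 : pos v k < q) (hk : tau v k < 0) :
    ∃ l, p + q - pos v k = pos v l := by
  by_cases h3 : pos v k = (p + q) / 2
  · exact ⟨k, by linarith⟩
  · by_contra hcon
    push Not at hcon
    have := h.pair h1 h2 h3
    rw [hv.ang_pos, hv.ang_edge (by linarith) hcon] at this
    linarith

lemma Good.inner_sum (hv : Good v) {i j : ℕ} (h : LegOK v (pos v i) (pos v j)) :
    -π ≤ ∑ k ∈ Ioo i j, tau v k := by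
  classical
  set p := pos v i
  set q := pos v j
  have hp : 0 ≤ p := hv.pos_nonneg i
  set P := (Ioo i j).image (pos v) with hP
  set S := P ∪ P.image (fun y => p + q - y) with hS
  have hPm : ∀ y ∈ P, p < y ∧ y < q := by
    intro y hy
    obtain ⟨k, hk, rfl⟩ := mem_image.mp hy
    rw [mem_Ioo] at hk
    exact ⟨hv.mono hk.1, hv.mono hk.2⟩
  have hSm : ∀ y ∈ S, p < y ∧ y < q := by
    intro y hy
    rcases mem_union.mp hy with g | g
    · exact hPm y g
    · obtain ⟨z, hz, rfl⟩ := mem_image.mp g
      have := hPm z hz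
      constructor <;> linarith [this.1, this.2]
  have hSr : ∀ y ∈ S, p + q - y ∈ S := by
    intro y hy
    rcases mem_union.mp hy with g | g
    · exact mem_union_right _ (mem_image_of_mem _ g)
    · obtain ⟨z, hz, rfl⟩ := mem_image.mp g
      rw [sub_sub_cancel]
      exact mem_union_left _ hz
  have e1 : ∑ k ∈ Ioo i j, tau v k = ∑ y ∈ P, (π - ang v y) := by
    rw [hP, sum_image (fun a _ b _ hab => hv.mono.injective hab)]
    apply sum_congr rfl
    intro k _
    rw [hv.ang_pos]; ring
  have e2 : ∑ y ∈ P, (π - ang v y) = ∑ y ∈ S, (π - ang v y) := by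
    apply sum_subset subset_union_left
    intro y hy hyP
    rw [hv.ang_edge (by linarith [(hSm y hy).1]), sub_self]
    rintro k rfl
    apply hyP
    apply mem_image_of_mem
    rw [mem_Ioo]
    exact ⟨hv.mono.lt_iff_lt.mp (hSm _ hy).1, hv.mono.lt_iff_lt.mp (hSm _ hy).2⟩
  have e3 : ∑ y ∈ S, (π - ang v y) = ∑ y ∈ S, (π - ang v (p + q - y)) := by
    apply sum_nbij' (fun y => p + q - y) (fun y => p + q - y) hSr hSr
    · intro y _; simp
    · intro y _; simp
    · intro y _; simp
  have e4 : ∑ y ∈ S, (if y = (p + q) / 2 then -(2 * π) else 0) ≤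
      ∑ y ∈ S, ((π - ang v y) + (π - ang v (p + q - y))) := by
    apply sum_le_sum
    intro y hy
    split_ifs with g
    · rw [g, show p + q - (p + q) / 2 = (p + q) / 2 by ring]
      linarith [h.2]
    · linarith [h.pair (hSm y hy).1 (hSm y hy).2 g]
  rw [sum_ite_eq', sum_add_distrib, ← e3, ← e2, ← e1] at e4
  split_ifs at e4 <;> linarith [pi_pos]

open Classical in
/-- number of sharp vertices strictly between `j` and `i + n` -/
noncomputable def cnt (v : ZMod n → ℂ) (i j : ℕ) : ℕ :=
  ((Ioo j (i + n)).filter (fun k : ℕ => π / 2 ≤ tau v k)).card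

/-- good pairs -/
def GoodPair (v : ZMod n → ℂ) (i j : ℕ) : Prop :=
  i < j ∧ j < i + n ∧ (π / 2 ≤ tau v i ∨ π / 2 ≤ tau v j) ∧ cnt v i j ≤ 12

lemma sum_split (g : ℕ → ℝ) {i j m : ℕ} (h1 : i < j) (h2 : j < i + m) :
    ∑ k ∈ range m, g (i + k) = g i + ∑ k ∈ Ioo i j, g k + g j + ∑ k ∈ Ioo j (i + m), g k := by
  have h := sum_Ico_eq_sum_range g i (i + m)
  rw [Nat.add_sub_cancel_left] at h
  rw [← h, ← sum_Ico_consecutive g h1.le h2.le, ← add_sum_Ioo_eq_sum_Ico h1,
    ← add_sum_Ioo_eq_sum_Ico h2]
  ring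

lemma Good.notGood (hv : Good v) {i j : ℕ} (h : ¬ GoodPair v i j) :
    (Ty v i j).encard ≤ (6 * n : ℕ) := by
  classical
  suffices hX : ∃ X : Finset ℝ, X.card ≤ 6 * n ∧ ∀ x, G v i j x → x ∈ X by
    obtain ⟨X, h1, h2⟩ := hX
    have h3 : Ty v i j ⊆ (yType v (pos v i) (pos v j)) '' (X : Set ℝ) :=
      Set.image_mono fun x hx => h2 x hx
    refine (Set.encard_le_encard h3).trans ((Set.encard_image_le _ _).trans ?_)
    rw [Set.encard_coe_eq_coe_finsetCard]
    exact_mod_cast h1
  set R := range (2 * n) with hR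
  have hlt : ∀ x, G v i j x → ∀ k, pos v k < pos v (i + n) → k ∈ R := fun x hx k hk => by
    have := hv.mono.lt_iff_lt.mp hk
    have := hx.hi
    rw [hR, mem_range]; omega
  have hj0 := hv.pos_nonneg j
  by_cases hre : ∃ k ∈ Ioo j (i + n), tau v k < 0
  · obtain ⟨k, hk1, hk2⟩ := hre
    rw [mem_Ioo] at hk1
    refine ⟨R.image (pos v) ∪ (R.image (fun l => pos v k + pos v l - pos v j) ∪
      R.image (fun l => pos v k + pos v l - pos v (i + n))), ?_, fun x hx => ?_⟩
    · have e : 6 * n = 2 * n + (2 * n + 2 * n) := by ring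
      rw [e]
      refine (card_union_le _ _).trans
        (add_le_add ?_ ((card_union_le _ _).trans (add_le_add ?_ ?_)))
      · exact card_image_le.trans (by simp [hR])
      · exact card_image_le.trans (by simp [hR])
      · exact card_image_le.trans (by simp [hR])
    · have g1 := hv.mono hk1.1
      have g2 := hv.mono hk1.2
      rcases lt_trichotomy (pos v k) x with g | g | g
      · obtain ⟨l, hl⟩ := hv.partner hj0 hx.l2 g1 g hk2
        refine mem_union_right _ (mem_union_left _ (mem_image.mpr ⟨l, hlt x hx l ?_, ?_⟩))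
        · linarith [hx.hx2]
        · linarith
      · exact mem_union_left _ (mem_image.mpr ⟨k, hlt x hx k g2, g⟩)
      · obtain ⟨l, hl⟩ := hv.partner (by linarith [hx.hx1]) hx.l3 g g2 hk2
        refine mem_union_right _ (mem_union_right _ (mem_image.mpr ⟨l, hlt x hx l ?_, ?_⟩))
        · linarith
        · linarith
  · push Not at hre
    refine ⟨R.image (pos v), card_image_le.trans (by simp only [hR, card_range]; omega),
      fun x hx => ?_⟩
    by_contra hcon
    have hnv : ∀ k, x ≠ pos v k := by
      rintro k rfl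
      exact hcon (mem_image_of_mem _ (hlt _ hx k hx.hx2))
    have h1 := hx.hang
    rw [hv.ang_pos, hv.ang_pos, hv.ang_edge (by linarith [hx.hx1]) hnv] at h1
    apply h
    refine ⟨hx.hij, hx.hj, ?_, ?_⟩
    · by_contra hc
      push Not at hc
      linarith [hc.1, hc.2]
    · have h2 := total_turn_le hv.simple hv.two i
      rw [sum_split (fun k : ℕ => tau v k) hx.hij hx.hj] at h2
      have h3 := hv.inner_sum hx.l1
      have h4 : ∑ k ∈ (Ioo j (i + n)).filter (fun k : ℕ => π / 2 ≤ tau v k), tau v k ≤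
          ∑ k ∈ Ioo j (i + n), tau v k :=
        sum_le_sum_of_subset_of_nonneg (filter_subset _ _) fun k hk _ => hre k hk
      have h5 := card_nsmul_le_sum ((Ioo j (i + n)).filter (fun k : ℕ => π / 2 ≤ tau v k))
        (fun k : ℕ => tau v k) (π / 2) (fun k hk => (mem_filter.mp hk).2)
      rw [nsmul_eq_mul] at h5
      have h6 : (cnt v i j : ℝ) * (π / 2) ≤ 12 * (π / 2) := by
        unfold cnt
        linarith
      have h7 : (cnt v i j : ℝ) ≤ 12 := le_of_mul_le_mul_right h6 (by linarith [pi_pos])
      exact_mod_cast h7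

open Classical in
lemma card_good_le (v : ZMod n → ℂ) :
    ((range n ×ˢ range (2 * n)).filter (fun ij => GoodPair v ij.1 ij.2)).card ≤ 39 * n := by
  set S := (range n ×ˢ range (2 * n)).filter (fun ij => GoodPair v ij.1 ij.2) with hS
  have h1 : (S.filter (fun ij => π / 2 ≤ tau v ij.2)).card ≤ (range n ×ˢ range 13).card := by
    apply card_le_card_of_injOn (fun ij => (ij.1, cnt v ij.1 ij.2))
    · intro ij hij
      simp only [hS, coe_filter, mem_filter, mem_product, mem_range, Set.mem_ofPred_eq,
        coe_product, coe_range, Set.mem_prod, Set.mem_Iio] at hij ⊢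
      exact ⟨hij.1.1.1, by have := hij.1.2.2.2.2; omega⟩
    · have key : ∀ i j j', j < j' → j' < i + n → π / 2 ≤ tau v (j' : ℕ) →
          cnt v i j' < cnt v i j := by
        intro i j j' a1 a2 a3
        unfold cnt
        apply card_lt_card
        rw [ssubset_iff_of_subset (filter_subset_filter _ (Ioo_subset_Ioo_left a1.le))]
        exact ⟨j', mem_filter.mpr ⟨mem_Ioo.mpr ⟨a1, a2⟩, a3⟩, by simp⟩
      rintro ⟨i, j⟩ hij ⟨i', j'⟩ hij' he
      simp only [hS, coe_filter, mem_filter, Set.mem_ofPred_eq, Prod.mk.injEq] at hij hij' he ⊢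
      obtain ⟨rfl, he2⟩ := he
      refine ⟨rfl, ?_⟩
      rcases lt_trichotomy j j' with g | g | g
      · have := key i j j' g hij'.1.2.2.1 hij'.2; omega
      · exact g
      · have := key i j' j g hij.1.2.2.1 hij.2; omega
  have h2 : (S.filter (fun ij => ¬ π / 2 ≤ tau v ij.2)).card ≤
      (range (2 * n) ×ˢ range 13).card := by
    apply card_le_card_of_injOn (fun ij => (ij.2, cnt v ij.1 ij.2))
    · intro ij hij
      simp only [hS, coe_filter, mem_filter, mem_product, mem_range, Set.mem_ofPred_eq,
        coe_product, coe_range, Set.mem_prod, Set.mem_Iio] at hij ⊢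
      exact ⟨hij.1.1.2, by have := hij.1.2.2.2.2; omega⟩
    · have key : ∀ i i' j, i < i' → j < i + n → π / 2 ≤ tau v (i : ℕ) →
          cnt v i j < cnt v i' j := by
        intro i i' j a1 a2 a3
        unfold cnt
        apply card_lt_card
        rw [ssubset_iff_of_subset (filter_subset_filter _ (Ioo_subset_Ioo_right (by omega)))]
        refine ⟨i + n, mem_filter.mpr ⟨mem_Ioo.mpr ⟨a2, by omega⟩, by simpa using a3⟩, by simp⟩
      rintro ⟨i, j⟩ hij ⟨i', j'⟩ hij' he
      simp only [hS, coe_filter, mem_filter, Set.mem_ofPred_eq, Prod.mk.injEq] at hij hij' he ⊢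
      obtain ⟨rfl, he2⟩ := he
      refine ⟨?_, rfl⟩
      rcases lt_trichotomy i i' with g | g | g
      · have := key i i' j g hij.1.2.2.1 (hij.1.2.2.2.1.resolve_right hij.2); omega
      · exact g
      · have := key i' i j g hij'.1.2.2.1 (hij'.1.2.2.2.1.resolve_right hij'.2); omega
  have h3 := card_filter_add_card_filter_not (s := S) (fun ij => π / 2 ≤ tau v ij.2)
  simp only [card_product, card_range] at h1 h2
  omega

lemma encard_biUnion_le' {α β : Type} (s : Finset α) (f : α → Set β) :
    (⋃ a ∈ s, f a).encard ≤ ∑ a ∈ s, (f a).encard := by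
  classical
  induction s using Finset.induction_on with
  | empty => simp
  | insert a s ha ih =>
    rw [set_biUnion_insert, sum_insert ha]
    exact (Set.encard_union_le _ _).trans (add_le_add le_rfl ih)

theorem Good.upper (hv : Good v) :
    {τ | ∃ a b c, IsY v a b c ∧ τ = yType v a b c}.encard ≤ (831 * n ^ 3 : ℕ) := by
  classical
  have hsub : {τ | ∃ a b c, IsY v a b c ∧ τ = yType v a b c} ⊆
      ⋃ ij ∈ range n ×ˢ range (2 * n), Ty v ij.1 ij.2 := by
    rintro _ ⟨a, b, c, h, rfl⟩
    obtain ⟨i, j, x, h1, h2⟩ := hv.normalize h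
    refine Set.mem_biUnion (x := (i, j)) ?_ ⟨x, h1, h2.symm⟩
    have := h1.hi
    have := h1.hj
    simp only [coe_product, coe_range, Set.mem_prod, Set.mem_Iio]
    omega
  refine (Set.encard_le_encard hsub).trans ((encard_biUnion_le' _ _).trans ?_)
  have h1 : ∑ ij ∈ range n ×ˢ range (2 * n), (Ty v ij.1 ij.2).encard ≤
      ∑ ij ∈ range n ×ˢ range (2 * n),
        (((if GoodPair v ij.1 ij.2 then 21 * n ^ 2 else 0) + 6 * n : ℕ) : ℕ∞) := by
    apply sum_le_sum
    intro ij _
    split_ifs with g
    · exact (hv.Ty_le _ _).trans (by exact_mod_cast Nat.le_add_right _ _)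
    · rw [zero_add]; exact hv.notGood g
  refine h1.trans ?_
  rw [← Nat.cast_sum, Nat.cast_le, sum_add_distrib, ← sum_filter, sum_const, sum_const,
    smul_eq_mul, smul_eq_mul, card_product, card_range, card_range]
  have h2 := Nat.mul_le_mul_right (21 * n ^ 2) (card_good_le v)
  nlinarith

end Pool.Agent.P.MP_d9fc2a_co
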